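import Pool.Agent.H29.ENR.Stmts

/-!
Board enr (helper29, MP_d15c96_al), row CPC.
-/

set_option autoImplicit false
set_option linter.style.haveILetI false

namespace Pool.ENR

open Pool.Agent.H81.ENG

theorem glaw_subgroup {G : Type} [Group G] {d : ℕ} (h : GLaw G d) (S : Subgroup G) :
    GLaw S d := by
  obtain ⟨r, hr⟩ := h
  have key : ∀ (n : ℕ) (x y : S), (((fun z : S => z⁻¹ * y⁻¹ * z * y)^[n] x : S) : G) =
      (fun z : G => z⁻¹ * (y : G)⁻¹ * z * (y : G))^[n] (x : G) := by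
    intro n
    induction n with
    | zero => intro x y; rfl
    | succ n ih =>
      intro x y
      rw [Function.iterate_succ_apply, Function.iterate_succ_apply, ih]
      rfl
  refine ⟨r, fun x y => Subtype.ext ?_⟩
  rw [key, key, hr]

theorem cyc_ne_two {T : Type} [Group T] {p c : ℕ} (hc : 1 ≤ c) {σ : MulAut T}
    (h : Cyc p c σ) : p ≠ 2 := by
  rintro rfl
  obtain ⟨s, n, lam, j, u, h1, -, -, h4, h5, -, -⟩ := h
  have hj : ∃ j', j = 2 * j' := by
    rcases Nat.even_or_odd' j with ⟨j', h | h⟩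
    · exact ⟨j', h⟩
    · exfalso
      apply h5
      rw [h]
      show (2 * j' + 1) % 2 = 1 % 2
      omega
  obtain ⟨j', hj'⟩ := hj
  obtain ⟨c', rfl⟩ : ∃ c', c = c' + 1 := ⟨c - 1, by omega⟩
  have h6 : (n * s * n⁻¹) ^ (2 ^ c') = 1 := by
    rw [h4, ← pow_mul, hj', show 2 * j' * 2 ^ c' = 2 ^ (c' + 1) * j' by ring, pow_mul, ← h1,
      pow_orderOf_eq_one, one_pow]
  have h7 : s ^ (2 ^ c') = 1 := by
    rw [conj_pow] at h6
    have h8 : n * s ^ (2 ^ c') = n := by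
      have := congrArg (fun z => z * n) h6
      simpa using this
    simpa using h8
  have h9 := orderOf_dvd_of_pow_eq_one h7
  rw [h1] at h9
  have h10 := Nat.le_of_dvd (by positivity) h9
  have h11 : 2 ^ c' < 2 ^ (c' + 1) := Nat.pow_lt_pow_right (by norm_num) (by omega)
  omega

theorem cpc_thm (hPRD : PRDStmt) (hCHG : CHGStmt) (hSEC : SECStmt) (hCYR : CYRStmt)
    (hTRV : TRVStmt) (hGIS : GISStmt) : CPCStmt := by
  intro p T _ _ hp hgood G _ _ S e y N d v hy hSs hSn hD hL hv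
  classical
  set K := Subgroup.normalizer (S : Set G) with hK
  have hKmem : ∀ g, g ∈ K ↔ ∀ t, t ∈ S ↔ g * t * g⁻¹ ∈ S := fun g => Subgroup.mem_normalizer_iff
  have hex : ∃ b, y ^ (p ^ b) ∈ K := ⟨N, by rw [hy]; exact K.one_mem⟩
  obtain ⟨b, hbK, hbmin⟩ : ∃ b, y ^ (p ^ b) ∈ K ∧ ∀ e < b, y ^ (p ^ e) ∉ K :=
    ⟨Nat.find hex, Nat.find_spec hex, fun e he => Nat.find_min hex he⟩
  obtain ⟨k, hk⟩ : ∃ k, k = p ^ b := ⟨_, rfl⟩
  rw [← hk] at hbK
  have hk0 : 0 < k := by rw [hk]; exact pow_pos hp.pos b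
  have hnot : ∀ i, 0 < i → i < k → y ^ i ∉ K := by
    intro i hi hik hmem
    have hg : y ^ (Nat.gcd i (p ^ N)) ∈ K := by
      have h1 : (y ^ (Nat.gcd i (p ^ N)) : G) = (y ^ i) ^ (Nat.gcdA i (p ^ N)) *
          (y ^ (p ^ N)) ^ (Nat.gcdB i (p ^ N)) := by
        rw [← zpow_natCast, Nat.gcd_eq_gcd_ab, zpow_add, zpow_mul, zpow_mul, zpow_natCast,
          zpow_natCast]
      rw [h1, hy, one_zpow, mul_one]
      exact K.zpow_mem hmem _
    obtain ⟨e, -, he⟩ := (Nat.dvd_prime_pow hp).mp (Nat.gcd_dvd_right i (p ^ N))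
    rw [he] at hg
    have h2 : p ^ e ∣ i := he ▸ Nat.gcd_dvd_left i (p ^ N)
    have h3 : p ^ e < p ^ b := by
      rw [← hk]
      exact lt_of_le_of_lt (Nat.le_of_dvd hi h2) hik
    have h4 : e < b := (Nat.pow_lt_pow_iff_right hp.one_lt).mp h3
    exact hbmin e h4 hg
  have hkK := (hKmem _).1 hbK
  have hnotK : ∀ i, 0 < i → i < k → ¬ ∀ x, x ∈ S ↔ y ^ i * x * (y ^ i)⁻¹ ∈ S := by
    intro i hi hik h
    exact hnot i hi hik ((hKmem _).2 h)
  have hcenS : ¬ ∀ a c : S, a * c = c * a := by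
    intro h
    apply hSn
    intro a ha c hc
    exact congrArg Subtype.val (h ⟨a, ha⟩ ⟨c, hc⟩)
  have hcen : ∀ t ∈ S, (∀ s ∈ S, s * t = t * s) → t = 1 := by
    intro t ht hs
    have h1 : (⟨t, ht⟩ : S) ∈ Subgroup.center S := by
      rw [Subgroup.mem_center_iff]
      intro g
      exact Subtype.ext (hs g g.2)
    rcases hSs.eq_bot_or_eq_top_of_normal (Subgroup.center S) inferInstance with h2 | h2
    · rw [h2, Subgroup.mem_bot] at h1
      exact congrArg Subtype.val h1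
    · exfalso
      apply hSn
      intro a ha b hb
      have h3 : (⟨b, hb⟩ : S) ∈ Subgroup.center S := by rw [h2]; exact Subgroup.mem_top _
      rw [Subgroup.mem_center_iff] at h3
      exact congrArg Subtype.val (h3 ⟨a, ha⟩)
  -- the automorphism
  have hres : ∀ t, t ∈ S ↔ MulAut.conj (y ^ k)⁻¹ t ∈ S := by
    intro t
    rw [MulAut.conj_apply]
    have h1 := K.inv_mem hbK
    rw [hKmem] at h1
    exact h1 t
  obtain ⟨α, hαdef⟩ : ∃ α : MulAut S, α = restr (MulAut.conj (y ^ k)⁻¹) S hres := ⟨_, rfl⟩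
  have hα : ∀ t : S, ((α t : S) : G) = (y ^ k)⁻¹ * t * y ^ k := by
    intro t
    rw [hαdef]
    show MulAut.conj (y ^ k)⁻¹ (t : G) = _
    rw [MulAut.conj_apply, inv_inv]
  have hαm : ∀ (m : ℕ) (t : S), (((α ^ m) t : S) : G) = ((y ^ k) ^ m)⁻¹ * t * (y ^ k) ^ m := by
    intro m t
    rw [hαdef, restr_pow_apply, ← map_pow, MulAut.conj_apply, inv_pow, inv_inv]
  have hαN : α ^ (p ^ N) = 1 := by
    ext t
    rw [hαm, ← pow_mul, mul_comm k, pow_mul, hy, one_pow]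
    simp
  have hSL : SL (tsh α k) d :=
    hPRD G y S k hk0 hD hcen hkK hnotK α hα d (hL.sl y)
  have hexc : ∃ c, α ^ (p ^ c) = 1 := ⟨N, hαN⟩
  obtain ⟨c0, hc1, hc2⟩ : ∃ c, α ^ (p ^ c) = 1 ∧ ∀ e < c, α ^ (p ^ e) ≠ 1 :=
    ⟨Nat.find hexc, Nat.find_spec hexc, fun e he => Nat.find_min hexc he⟩
  have hclaim : p ^ (b + c0) ∣ ed d := by
    rcases Nat.eq_zero_or_pos c0 with h0 | h0
    · subst h0
      have hα1 : α = 1 := by rwa [pow_zero, pow_one] at hc1
      rw [hα1, hk] at hSL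
      rw [add_zero]
      exact hTRV S p b hp hSs hcenS d hSL
    · obtain ⟨m, rfl⟩ : ∃ m, c0 = m + 1 := ⟨c0 - 1, by omega⟩
      have hne : α ^ (p ^ m) ≠ 1 := hc2 m (by omega)
      have hgS : Good p S := hGIS p T S e.symm hgood
      rcases hgS α N m hαN hne with hsec | ⟨t, c, hmc, hcyc, hlaw⟩ | hw
      · have h1 := hSEC S p m N α hp hαN hsec b d (by rw [← hk]; exact hSL)
        exact h1
      · rcases Nat.eq_zero_or_pos b with hb0 | hb0
        · rw [hb0, zero_add]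
          exact hlaw d (glaw_subgroup hL S)
        · have hp2 : p ≠ 2 := cyc_ne_two (by omega) hcyc
          have ht' : ((t : G))⁻¹ ∈ S := S.inv_mem t.2
          obtain ⟨g1, g2, g3⟩ := hCHG G y (t : G)⁻¹ S k hk0 hD ht' hkK hnotK
          have hSL' : SL (tsh (MulAut.conj t * α) k) d := by
            refine hPRD G (y * (t : G)⁻¹) S k hk0 hD hcen g1 g2 (MulAut.conj t * α) ?_ d
              (hL.sl _)
            intro x
            rw [g3 x x.2, MulAut.mul_apply, MulAut.conj_apply, ← hα x, inv_inv]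
            rfl
          rw [hk] at hSL'
          have h1 := hCYR S p b c (MulAut.conj t * α) hp hp2 hb0 (by omega) hcyc d hSL'
          exact dvd_trans (pow_dvd_pow p (by omega)) (dvd_trans h1 (dvd_ed d))
      · exact hw b d (by rw [← hk]; exact hSL)
  have hbc : b + c0 ≤ v := by
    by_contra hcon
    push Not at hcon
    exact hv (dvd_trans (pow_dvd_pow p (by omega)) hclaim)
  have hyv : y ^ (p ^ v) = (y ^ k) ^ (p ^ (v - b)) := by
    rw [← pow_mul, hk, ← pow_add]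
    congr 2
    omega
  have hαv : α ^ (p ^ (v - b)) = 1 := by
    obtain ⟨f, hf⟩ := Nat.exists_eq_add_of_le (show c0 ≤ v - b by omega)
    rw [hf, pow_add, pow_mul, hc1, one_pow]
  intro t ht
  have h1 := hαm (p ^ (v - b)) ⟨t, ht⟩
  rw [hαv, ← hyv] at h1
  have h2 : t = (y ^ (p ^ v))⁻¹ * t * y ^ (p ^ v) := h1
  calc y ^ (p ^ v) * t = y ^ (p ^ v) * ((y ^ (p ^ v))⁻¹ * t * y ^ (p ^ v)) := by rw [← h2]
    _ = t * y ^ (p ^ v) := by group

end Pool.ENR
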