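import Pool.Agent.H36.ENR.Stmts2

/-!
Board enr, second part (helper36, MP_d15c96_al), row TRC.
-/

set_option autoImplicit false

namespace Pool.ENR

theorem trc_thm : TRCStmt := by
  intro T _ a y w h1 h2 h3 h4
  have ha : a⁻¹ = a := inv_eq_of_mul_eq_one_left h1
  have h5 : y * a * y = a * y⁻¹ * a := by
    have h6 : a * (y * a * y) * (a * y) = 1 := by
      rw [← h2, pow_succ, pow_succ, pow_one]
      group
    have h7 : a * (y * a * y) = (a * y)⁻¹ := eq_inv_of_mul_eq_one_left h6
    rw [mul_inv_rev, ha] at h7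
    calc y * a * y = a⁻¹ * (a * (y * a * y)) := by group
      _ = a * (y⁻¹ * a) := by rw [h7, ha]
      _ = a * y⁻¹ * a := by group
  have c1 : Commute w y := h3
  have c2 : Commute w y⁻¹ := c1.inv_right
  have c3 : Commute w (a * (y⁻¹ * a * y)) := h4
  have c4 : Commute w (a * (y⁻¹ * a * y) * y⁻¹) := c3.mul_right c2
  have e4 : a * (y⁻¹ * a * y) * y⁻¹ = y * a * y := by
    rw [h5]
    group
  rw [e4] at c4
  have c5 : Commute w (y⁻¹ * (y * a * y) * y⁻¹) := (c2.mul_right c4).mul_right c2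
  have e5 : y⁻¹ * (y * a * y) * y⁻¹ = a := by group
  rw [e5] at c5
  exact c5

end Pool.ENR
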